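import Pool.Agent.W128.VA.Stm

/-!
# Project VA (MP_11a9fb_al): the statement `S_PINV`
-/

set_option autoImplicit false

namespace Pool.Agent.W61.VA.PINV

open Finset Pool.Agent.W128.VA

/-- `z d/dz` -/
noncomputable def th (f : PowerSeries R0) : PowerSeries R0 :=
  PowerSeries.mk fun n => (n : ℂ) • PowerSeries.coeff n f

/-- the generating series of `P σ` -/
noncomputable def A (σ : ℤ) : PowerSeries R0 := PowerSeries.mk (P σ)

/-- `∑ x_n z^n` -/
noncomputable def X1 : PowerSeries R0 :=
  PowerSeries.mk fun n => if n = 0 then 0 else MvPolynomial.X (n - 1)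

theorem th_mul (f g : PowerSeries R0) : th (f * g) = th f * g + f * th g := by
  ext1 n
  simp only [th, map_add, PowerSeries.coeff_mk, PowerSeries.coeff_mul]
  rw [Finset.smul_sum, ← Finset.sum_add_distrib]
  refine Finset.sum_congr rfl fun ij hij => ?_
  rw [Finset.HasAntidiagonal.mem_antidiagonal] at hij
  rw [smul_mul_assoc, mul_smul_comm, ← add_smul]
  congr 1
  rw [← hij]
  push_cast
  ring

theorem th_A (σ : ℤ) : th (A σ) = (σ : ℂ) • (X1 * A σ) := by
  ext1 n
  simp only [th, A, X1, PowerSeries.coeff_mk, PowerSeries.coeff_smul, PowerSeries.coeff_mul]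
  rcases n with _ | a
  · simp
  · push_cast
    rw [P_rec]
    congr 1
    rw [Finset.Nat.sum_antidiagonal_eq_sum_range_succ
      (fun i j => (if i = 0 then (0 : R0) else MvPolynomial.X (i - 1)) * P σ j),
      Finset.sum_range_succ' _ (a + 1)]
    simp

theorem B_eq (σ : ℤ) : A σ * A (-σ) = 1 := by
  have h1 : th (A σ * A (-σ)) = 0 := by
    rw [th_mul, th_A, th_A]
    push_cast
    rw [neg_smul, mul_neg, smul_mul_assoc, mul_smul_comm]
    have : X1 * A σ * A (-σ) = A σ * (X1 * A (-σ)) := by ring
    rw [this]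
    abel
  ext1 n
  rcases n with _ | a
  · simp [A, P_zero]
  · have h2 : PowerSeries.coeff (a + 1) (th (A σ * A (-σ))) = 0 := by rw [h1]; simp
    rw [th, PowerSeries.coeff_mk] at h2
    have h3 : ((a + 1 : ℕ) : ℂ) ≠ 0 := by exact_mod_cast Nat.succ_ne_zero a
    rw [(smul_eq_zero_iff_right h3).1 h2]
    simp [PowerSeries.coeff_one]

theorem main : S_PINV := by
  intro σ s
  constructor
  · have h := congrArg (PowerSeries.coeff s) (B_eq σ)
    rw [PowerSeries.coeff_mul, PowerSeries.coeff_one] at h
    simp only [A, PowerSeries.coeff_mk] at h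
    rw [Finset.Nat.sum_antidiagonal_eq_sum_range_succ (fun i j => P σ i * P (-σ) j)] at h
    exact h
  · have h0 : th (A σ) * A (-σ) = (σ : ℂ) • X1 := by
      rw [th_A, smul_mul_assoc, mul_assoc, B_eq, mul_one]
    have h := congrArg (PowerSeries.coeff s) h0
    rw [PowerSeries.coeff_mul, PowerSeries.coeff_smul] at h
    simp only [A, th, X1, PowerSeries.coeff_mk] at h
    rw [Finset.Nat.sum_antidiagonal_eq_sum_range_succ
      (fun i j => (i : ℂ) • P σ i * P (-σ) j)] at h
    simp only [smul_mul_assoc] at h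
    rw [h]
    split_ifs <;> simp

end Pool.Agent.W61.VA.PINV
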